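import Pool.Agent.H8.UN.All

/-!
# One formula carries the whole question, in the strong form

A set `A` of numbers is complete if it is a spectrum, every spectrum is reduced to it by a polynomial,
and its complement is a spectrum if and only if the complements of all spectra are.
-/

set_option autoImplicit false

namespace Pool.Agent.H51.UN

open Pool.Agent.H69.Sp Pool.Agent.H69.Mt Pool.Agent.H16.TO Pool.Agent.H8.PL Pool.Agent.H8.DI
open Pool.Agent.H8.PU Pool.Agent.H8.UN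

/-- `A` is a spectrum, every spectrum `S` is reduced to `A` by a polynomial (which depends on `S`), and
the complement of `A` is a spectrum if and only if the complements of all spectra are. -/
def Complete (A : Set ℕ) : Prop :=
  IsSpectrum A ∧
  (∀ S, IsSpectrum S → ∃ p : Polynomial ℤ, ∀ n : ℕ, 0 < n →
    ∃ m : ℕ, (m : ℤ) = p.eval (n : ℤ) ∧ n ≤ m ∧ (n ∈ S ↔ m ∈ A)) ∧
  (IsSpectrum (posCompl A) ↔ ∀ S, IsSpectrum S → IsSpectrum (posCompl S))

/-- from a reduction of the universal spectrum by a polynomial `q` -/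
theorem complete_of (hUR : N_UR) (hRE : N_RE) (A : Set ℕ) (g : ℕ → ℕ) (q : Polynomial ℤ)
    (hA : IsSpectrum A) (hq : ∀ n : ℕ, 0 < n → ((g n : ℕ) : ℤ) = q.eval (n : ℤ))
    (hle : ∀ n : ℕ, 4 ≤ n → n ≤ g n)
    (hpb : ∀ X, IsSpectrum X → IsSpectrum {n | 4 ≤ n ∧ g n ∈ X})
    (h : ∀ n, 4 ≤ n → (n ∈ X0 ↔ g n ∈ A)) : Complete A := by
  refine ⟨hA, fun S hS => ?_, fun h1 => ?_, fun h1 => h1 A hA⟩
  · obtain ⟨a, r, e, ha, hr, h2⟩ := hUR S hS
    refine ⟨q.comp (Polynomial.C (a : ℤ) * Polynomial.X ^ r + Polynomial.C (e : ℤ)),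
      fun n hn => ?_⟩
    have h3 : n ≤ n ^ r := Nat.le_self_pow hr.ne' n
    have h4 : 4 * n ≤ a * n ^ r := Nat.mul_le_mul ha h3
    have h5 : 4 ≤ a * n ^ r + e := by omega
    refine ⟨g (a * n ^ r + e), ?_, ?_, (h2 n hn).trans (h _ h5)⟩
    · rw [hq _ (by omega)]
      simp [Polynomial.eval_comp]
    · exact le_trans (by omega) (hle _ h5)
  · exact hRE A g hpb (fun n hn => lt_of_lt_of_le (by omega) (hle n hn)) h h1

/-- two or more special relations -/
theorem complete_specK (l : ℕ) (τ : ℕ → Kd) (hl : 2 ≤ l) : ∃ φ : C2, Complete (specK l τ φ) := by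
  obtain ⟨hp1, hp2, hp3, -⟩ := Pool.Agent.H77.DI.pf_po
  have hpol : ∀ N : ℕ, ((pol N : ℕ) : ℤ) = 4 * (N : ℤ) ^ 3 + (N : ℤ) ^ 2 - N := by
    intro N
    have h1 := hp1 N
    rw [hp2 N] at h1
    have h2 : ((pol N : ℕ) : ℤ) + N = 4 * (N : ℤ) ^ 3 + (N : ℤ) ^ 2 := by exact_mod_cast h1
    linarith
  obtain ⟨φ, r, hr, h | h⟩ := k_hd l τ hl X0 pf_xs
  · refine ⟨φ, complete_of n_ur n_re _ (fun n => 2 * r * n ^ r)
      (2 * Polynomial.C (r : ℤ) * Polynomial.X ^ r) (pf_sk l τ φ) (fun n _ => by simp)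
      (fun n _ => ?_) (fun X hX => ge4 Pool.Agent.H19.UN.pf_f4 _ X
        (Pool.Agent.H84.TW.pf_pb X hX (2 * r) r (by omega) hr)) (fun n hn => h n (by omega))⟩
    calc n ≤ n ^ r := Nat.le_self_pow hr.ne' n
      _ = 1 * n ^ r := (one_mul _).symm
      _ ≤ 2 * r * n ^ r := Nat.mul_le_mul_right _ (by omega)
  · refine ⟨φ, complete_of n_ur n_re _ (fun n => pol (n ^ r))
      (4 * (Polynomial.X ^ r) ^ 3 + (Polynomial.X ^ r) ^ 2 - Polynomial.X ^ r) (pf_sk l τ φ)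
      (fun n _ => by rw [hpol]; simp) (fun n _ => (Nat.le_self_pow hr.ne' n).trans (hp3 _))
      (fun X hX => ge4 Pool.Agent.H19.UN.pf_f4 _ X (Pool.Agent.H8.DI.pf_pb X hX r hr))
      (fun n hn => h n (by omega))⟩

/-- the spectra of formulas over two linear orders with successor relations are spectra -/
theorem spectrum_specS (φ : C2) : IsSpectrum (specS φ) := by
  obtain ⟨ψ, g1, _, g3⟩ := specS_eq H89.TO.pf_cd H3.TW.pf_ky H47.TW.pf_su
  have e : specS φ = specO 2 (.and φ ψ) := Set.ext fun n => g3 φ n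
  rw [e]
  exact t_s1 2 _

/-- two linear orders with their successor relations, without counting -/
theorem complete_specS : ∃ φ : C2, φ.NoCount ∧ φ.BinLt 4 ∧ Complete (specS φ) := by
  obtain ⟨φ, r, hr, h1, h2, h⟩ := t_q2 X0 pf_xs
  refine ⟨φ, h1, h2, complete_of n_ur n_re _ (fun n => 2 * r * n ^ r)
      (2 * Polynomial.C (r : ℤ) * Polynomial.X ^ r) (spectrum_specS φ) (fun n _ => by simp)
      (fun n _ => ?_) (fun X hX => ge4 Pool.Agent.H19.UN.pf_f4 _ X
        (Pool.Agent.H84.TW.pf_pb X hX (2 * r) r (by omega) hr)) (fun n hn => h n (by omega))⟩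
  calc n ≤ n ^ r := Nat.le_self_pow hr.ne' n
    _ = 1 * n ^ r := (one_mul _).symm
    _ ≤ 2 * r * n ^ r := Nat.mul_le_mul_right _ (by omega)

/-- planar graphs -/
theorem complete_specPl : ∃ φ : G2, Complete (specPl φ) := by
  obtain ⟨φ, r, c, hr, hc, h⟩ := y_p1 X0 pf_xs
  refine ⟨φ, complete_of n_ur n_re _ (fun n => c * ((n ^ r - 1) ^ 2 + 1))
    (Polynomial.C (c : ℤ) * ((Polynomial.X ^ r - 1) ^ 2 + 1)) (y_sp φ) (fun n hn => ?_)
    (fun n hn => ?_) (fun X hX => H51.PU.pf_PB X hX r c hr hc) h⟩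
  · have h1 : 1 ≤ n ^ r := Nat.one_le_pow _ _ hn
    have h2 : ((n ^ r - 1 : ℕ) : ℤ) = (n : ℤ) ^ r - 1 := by
      rw [Nat.cast_sub h1]
      simp
    simp only [Nat.cast_mul, Nat.cast_add, Nat.cast_pow, Nat.cast_one]
    rw [h2]
    simp
  · have h3 : n ≤ n ^ r := Nat.le_self_pow hr.ne' n
    have h4 : n - 1 ≤ n ^ r - 1 := by omega
    have h5 : n - 1 ≤ (n ^ r - 1) ^ 2 := h4.trans (Nat.le_self_pow two_ne_zero _)
    calc n ≤ (n ^ r - 1) ^ 2 + 1 := by omega
      _ = 1 * ((n ^ r - 1) ^ 2 + 1) := (one_mul _).symm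
      _ ≤ c * ((n ^ r - 1) ^ 2 + 1) := Nat.mul_le_mul_right _ hc

end Pool.Agent.H51.UN
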